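import Pool.Agent.H78.XQ.Targets

/-!
# MP_0f8dca_lc, XQ, module NUX: estimates for the error terms
-/

set_option autoImplicit false

namespace Pool.Agent.H13.XQ

open Pool.Agent.H78.XQ

lemma exp_bound (x : ℝ) (a b : ℕ) (h : ((a + b : ℕ) : ℝ) ≤ x) :
    (2 : ℝ) ^ a * Real.exp (-x) ≤ (1 / 2) ^ b := by
  have h1 : Real.exp (-x) ≤ (1 / 2 : ℝ) ^ (a + b) := by
    have h2 : Real.exp (-1) ≤ 1 / 2 := by
      rw [Real.exp_neg]
      have h3 : (2 : ℝ) ≤ Real.exp 1 := by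
        have := Real.add_one_le_exp (1 : ℝ)
        linarith
      rw [one_div]
      exact inv_anti₀ (by norm_num) h3
    calc Real.exp (-x) ≤ Real.exp (((a + b : ℕ) : ℝ) * (-1)) := Real.exp_le_exp.2 (by linarith)
      _ = Real.exp (-1) ^ (a + b) := by rw [Real.exp_nat_mul]
      _ ≤ (1 / 2 : ℝ) ^ (a + b) := pow_le_pow_left₀ (Real.exp_pos _).le h2 _
  calc (2 : ℝ) ^ a * Real.exp (-x) ≤ 2 ^ a * (1 / 2 : ℝ) ^ (a + b) :=
        mul_le_mul_of_nonneg_left h1 (by positivity)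
    _ = (1 / 2) ^ b := by
        rw [pow_add, ← mul_assoc, ← mul_pow]
        norm_num

lemma eighth (r : ℕ) : (1 / 8 : ℝ) ^ r / 16 = (1 / 2) ^ (3 * r + 4) := by
  rw [pow_add, pow_mul]
  norm_num
  ring

lemma eighth_half (r : ℕ) : (1 / 8 : ℝ) ^ r / 2 = (1 / 2) ^ (3 * r + 1) := by
  rw [pow_add, pow_mul]
  norm_num
  ring

/-- a quotient of natural numbers which is small -/
lemma frac_le (A m r : ℕ) (h : A * 2 ^ (3 * r + 4) ≤ 2 ^ m) :
    (A : ℝ) / 2 ^ m ≤ (1 / 8) ^ r / 16 := by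
  rw [eighth, div_le_iff₀ (by positivity)]
  have h1 : (A : ℝ) * 2 ^ (3 * r + 4) ≤ 2 ^ m := by exact_mod_cast h
  calc (A : ℝ) = (1 / 2) ^ (3 * r + 4) * (A * 2 ^ (3 * r + 4)) := by
        rw [mul_comm (A : ℝ), ← mul_assoc, ← mul_pow]
        norm_num
    _ ≤ (1 / 2) ^ (3 * r + 4) * 2 ^ m := mul_le_mul_of_nonneg_left h1 (by positivity)

lemma two_pow_ge (r : ℕ) : 3 * r + 6 ≤ 6 * 2 ^ r := by
  have := Nat.lt_two_pow_self (n := r)
  omega

theorem nux (_hNU2 : Pool.Agent.H70.EI.T_NU2) : T_NUX := by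
  intro r l q R n hS
  obtain ⟨hr, hl, -, hq, hR, hn⟩ := hS
  have hr3 : 20 * r ^ 2 ≤ r ^ 3 := by
    rw [pow_succ r 2, mul_comm (r ^ 2) r]
    exact Nat.mul_le_mul_right _ hr
  have hr2 : 20 * r ≤ r ^ 2 := by
    rw [pow_two]
    exact Nat.mul_le_mul_right _ hr
  have hl1 : 2 * r + 100 ≤ l := by nlinarith
  have hR1 : 1 ≤ R := by
    rw [hR]
    have : 0 < (q + 3) ^ 2 := by positivity
    have : 0 < 512 * (q + 3) ^ 2 * l := by
      apply Nat.mul_pos (Nat.mul_pos (by norm_num) this)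
      omega
    omega
  have hnl : 2 * l + 3 * q ≤ n := by
    rw [hn]
    exact Nat.le_mul_of_pos_left _ hR1
  refine ⟨?_, ?_, ?_, ?_⟩
  · rw [eighth_half]
    calc (1 / 4 : ℝ) ^ l = (1 / 2) ^ (2 * l) := by rw [pow_mul]; norm_num
      _ ≤ (1 / 2) ^ (3 * r + 1) :=
        pow_le_pow_of_le_one (by norm_num) (by norm_num) (by omega)
  · rw [eighth]
    refine exp_bound _ _ _ ?_
    have e1 : (2 : ℝ) ^ (2 * l) * (1 / 2 ^ l) / 2 = ((2 ^ (l - 1) : ℕ) : ℝ) := by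
      obtain ⟨k, rfl⟩ : ∃ k, l = k + 1 := ⟨l - 1, by omega⟩
      rw [Nat.add_sub_cancel]
      push_cast
      rw [show 2 * (k + 1) = (k + 1) + (k + 1) by ring, pow_add]
      field_simp
      ring
    rw [e1]
    have h2 : 2 ^ r + (3 * r + 4) ≤ 2 ^ (l - 1) := by
      calc 2 ^ r + (3 * r + 4) ≤ 2 ^ (r + 3) := by
            rw [pow_add]
            have := two_pow_ge r
            omega
        _ ≤ 2 ^ (l - 1) := Nat.pow_le_pow_right (by norm_num) (by omega)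
    exact_mod_cast h2
  · set w : ℕ := 4 ^ r ^ 2 with hw
    have hw2 : w = 2 ^ (2 * r ^ 2) := by
      rw [hw, pow_mul]
      norm_num
    have h128 : (128 * w) ^ (r + 1 + 1) = 2 ^ ((7 + 2 * r ^ 2) * (r + 2)) := by
      rw [hw2, show 128 = 2 ^ 7 by norm_num, ← pow_add, ← pow_mul]
    have t1 : (((12 * w * R) * (128 * w) ^ (r + 1 + 1) : ℕ) : ℝ) / 2 ^ l ≤ (1 / 8) ^ r / 16 := by
      refine frac_le _ _ _ ?_
      rw [h128]
      set k := l / 8 with hk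
      have hk1 : 8 * k ≤ l := Nat.mul_div_le l 8
      have hk2 : l < 8 * (k + 1) := by omega
      have hl2 : l ≤ 2 ^ (3 + k) := by
        have := Nat.lt_two_pow_self (n := k)
        rw [pow_add]
        omega
      have hq2 : q + 3 ≤ 2 ^ (7 + k) := by
        have : q + 3 ≤ 16 * l := by omega
        calc q + 3 ≤ 2 ^ 4 * l := this
          _ ≤ 2 ^ 4 * 2 ^ (3 + k) := Nat.mul_le_mul_left _ hl2
          _ = 2 ^ (7 + k) := by rw [← pow_add]; congr 1; ring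
      have hR2 : R ≤ 2 ^ (26 + 3 * k) := by
        rw [hR]
        calc 512 * (q + 3) ^ 2 * l ≤ 2 ^ 9 * (2 ^ (7 + k)) ^ 2 * 2 ^ (3 + k) :=
              Nat.mul_le_mul (Nat.mul_le_mul_left _ (Nat.pow_le_pow_left hq2 2)) hl2
          _ = 2 ^ (26 + 3 * k) := by rw [← pow_mul, ← pow_add, ← pow_add]; congr 1; ring
      have hE : 4 + 2 * r ^ 2 + (26 + 3 * k) + (7 + 2 * r ^ 2) * (r + 2) + (3 * r + 4) ≤ l := by
        have e1 : (7 + 2 * r ^ 2) * (r + 2) = 2 * r ^ 3 + 4 * r ^ 2 + 7 * r + 14 := by ring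
        rw [e1]
        omega
      calc 12 * w * R * 2 ^ ((7 + 2 * r ^ 2) * (r + 2)) * 2 ^ (3 * r + 4)
          ≤ 2 ^ 4 * 2 ^ (2 * r ^ 2) * 2 ^ (26 + 3 * k) * 2 ^ ((7 + 2 * r ^ 2) * (r + 2)) *
              2 ^ (3 * r + 4) := by
            refine Nat.mul_le_mul_right _ (Nat.mul_le_mul_right _ ?_)
            rw [← hw2]
            exact Nat.mul_le_mul (Nat.mul_le_mul_right _ (by norm_num)) hR2
        _ = 2 ^ (4 + 2 * r ^ 2 + (26 + 3 * k) + (7 + 2 * r ^ 2) * (r + 2) + (3 * r + 4)) := by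
            simp only [pow_add]
        _ ≤ 2 ^ l := Nat.pow_le_pow_right (by norm_num) hE
    have t2 : (((4 * w ^ 2) * (128 * w) ^ (r + 1 + 1) : ℕ) : ℝ) / 2 ^ n ≤ (1 / 8) ^ r / 16 := by
      refine frac_le _ _ _ ?_
      rw [h128, hw2, ← pow_mul]
      calc 4 * 2 ^ (2 * r ^ 2 * 2) * 2 ^ ((7 + 2 * r ^ 2) * (r + 2)) * 2 ^ (3 * r + 4)
          = 2 ^ (2 + 2 * r ^ 2 * 2 + (7 + 2 * r ^ 2) * (r + 2) + (3 * r + 4)) := by
            rw [show (4 : ℕ) = 2 ^ 2 by norm_num]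
            simp only [pow_add]
        _ ≤ 2 ^ n := by
            refine Nat.pow_le_pow_right (by norm_num) ?_
            have e1 : (7 + 2 * r ^ 2) * (r + 2) = 2 * r ^ 3 + 4 * r ^ 2 + 7 * r + 14 := by ring
            rw [e1]
            omega
    have e : (12 * (w : ℝ) * (R / 2 ^ l) + 4 * (w : ℝ) ^ 2 / 2 ^ n) * (128 * (w : ℝ)) ^ (r + 1 + 1)
        = (((12 * w * R) * (128 * w) ^ (r + 1 + 1) : ℕ) : ℝ) / 2 ^ l +
          (((4 * w ^ 2) * (128 * w) ^ (r + 1 + 1) : ℕ) : ℝ) / 2 ^ n := by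
      push_cast
      ring
    rw [e]
    linarith
  · have p1 : (2 : ℝ) ^ 2 ^ r * ((((2 ^ 2 ^ r ^ 2 : ℕ) : ℝ) + 1) ^ (r + 1 + 1) / 2 ^ 4 ^ r ^ 2) ≤
        (1 / 8) ^ r / 16 := by
      have h1 := frac_le (2 ^ 2 ^ r * (2 ^ 2 ^ r ^ 2 + 1) ^ (r + 1 + 1)) (4 ^ r ^ 2) r ?_
      · calc (2 : ℝ) ^ 2 ^ r * ((((2 ^ 2 ^ r ^ 2 : ℕ) : ℝ) + 1) ^ (r + 1 + 1) / 2 ^ 4 ^ r ^ 2)
            = ((2 ^ 2 ^ r * (2 ^ 2 ^ r ^ 2 + 1) ^ (r + 1 + 1) : ℕ) : ℝ) / 2 ^ 4 ^ r ^ 2 := by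
              push_cast
              ring
          _ ≤ _ := h1
      · set x : ℕ := 2 ^ r ^ 2 with hx
        have hx4 : 4 ^ r ^ 2 = x * x := by
          rw [hx, ← pow_add, ← two_mul, pow_mul]
          norm_num
        have hxr : 32 * 2 ^ r ≤ x := by
          rw [hx, show (32 : ℕ) = 2 ^ 5 by norm_num, ← pow_add]
          exact Nat.pow_le_pow_right (by norm_num) (by omega)
        have hx1 : 1 ≤ x := Nat.one_le_two_pow
        have hrr := Nat.lt_two_pow_self (n := r)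
        have hx2 : 2 ^ x + 1 ≤ 2 ^ (x + 1) := by
          rw [pow_succ]
          have : 1 ≤ 2 ^ x := Nat.one_le_two_pow
          omega
        calc 2 ^ 2 ^ r * (2 ^ x + 1) ^ (r + 1 + 1) * 2 ^ (3 * r + 4)
            ≤ 2 ^ 2 ^ r * (2 ^ (x + 1)) ^ (r + 1 + 1) * 2 ^ (3 * r + 4) :=
              Nat.mul_le_mul_right _ (Nat.mul_le_mul_left _ (Nat.pow_le_pow_left hx2 _))
          _ = 2 ^ (2 ^ r + (x + 1) * (r + 1 + 1) + (3 * r + 4)) := by
              rw [← pow_mul, ← pow_add, ← pow_add]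
          _ ≤ 2 ^ 4 ^ r ^ 2 := by
              refine Nat.pow_le_pow_right (by norm_num) ?_
              rw [hx4]
              have h5 : x * (32 * 2 ^ r) ≤ x * x := Nat.mul_le_mul_left _ hxr
              have h6 : x * (r + 1) ≤ x * 2 ^ r := Nat.mul_le_mul_left _ hrr
              have h7 : 1 * 2 ^ r ≤ x * 2 ^ r := Nat.mul_le_mul_right _ hx1
              nlinarith
    have p2 : (2 : ℝ) ^ 2 ^ r * (4 * Real.exp (-(2 ^ n * (R / 2 ^ l) ^ 2 / 4))) ≤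
        (1 / 8) ^ r / 16 := by
      rw [eighth]
      have h1 := exp_bound (2 ^ n * ((R : ℝ) / 2 ^ l) ^ 2 / 4) (2 ^ r) (3 * r + 6) ?_
      · calc (2 : ℝ) ^ 2 ^ r * (4 * Real.exp (-(2 ^ n * (R / 2 ^ l) ^ 2 / 4)))
            = 4 * ((2 : ℝ) ^ 2 ^ r * Real.exp (-(2 ^ n * ((R : ℝ) / 2 ^ l) ^ 2 / 4))) := by ring
          _ ≤ 4 * (1 / 2) ^ (3 * r + 6) := mul_le_mul_of_nonneg_left h1 (by norm_num)
          _ = (1 / 2) ^ (3 * r + 4) := by
              rw [show 3 * r + 6 = (3 * r + 4) + 2 by ring, pow_add]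
              norm_num
              ring
      · have hR1' : (1 : ℝ) ≤ R := by exact_mod_cast hR1
        have h2 : 2 ^ r + (3 * r + 6) ≤ 2 ^ (n - 2 * l - 2) := by
          calc 2 ^ r + (3 * r + 6) ≤ 2 ^ (r + 3) := by
                rw [pow_add]
                have := two_pow_ge r
                omega
            _ ≤ 2 ^ (n - 2 * l - 2) := Nat.pow_le_pow_right (by norm_num) (by omega)
        have h3 : ((2 ^ (n - 2 * l - 2) : ℕ) : ℝ) ≤ 2 ^ n * ((R : ℝ) / 2 ^ l) ^ 2 / 4 := by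
          obtain ⟨m, hm⟩ : ∃ m, n = m + 2 * l + 2 := ⟨n - 2 * l - 2, by omega⟩
          rw [show n - 2 * l - 2 = m by omega, hm]
          have e2 : (2 : ℝ) ^ (m + 2 * l + 2) * ((R : ℝ) / 2 ^ l) ^ 2 / 4 = 2 ^ m * (R : ℝ) ^ 2 := by
            rw [pow_add, pow_add, pow_mul, div_pow]
            have : ((2 : ℝ) ^ 2) ^ l = (2 ^ l) ^ 2 := by rw [← pow_mul, ← pow_mul, mul_comm]
            rw [this]
            field_simp
            norm_num
          rw [e2]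
          push_cast
          have h4 : (1 : ℝ) ≤ (R : ℝ) ^ 2 := one_le_pow₀ hR1'
          have h5 : (0 : ℝ) < 2 ^ m := by positivity
          nlinarith
        exact le_trans (by exact_mod_cast h2) h3
    calc (2 : ℝ) ^ 2 ^ r * ((((2 ^ 2 ^ r ^ 2 : ℕ) : ℝ) + 1) ^ (r + 1 + 1) / 2 ^ 4 ^ r ^ 2 +
          4 * Real.exp (-(2 ^ n * (R / 2 ^ l) ^ 2 / 4)))
        = (2 : ℝ) ^ 2 ^ r * ((((2 ^ 2 ^ r ^ 2 : ℕ) : ℝ) + 1) ^ (r + 1 + 1) / 2 ^ 4 ^ r ^ 2) +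
          (2 : ℝ) ^ 2 ^ r * (4 * Real.exp (-(2 ^ n * (R / 2 ^ l) ^ 2 / 4))) := by ring
      _ ≤ (1 / 8) ^ r / 16 + (1 / 8) ^ r / 16 := add_le_add p1 p2
      _ = (1 / 8) ^ r / 8 := by ring

end Pool.Agent.H13.XQ
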